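import Pool.Agent.Y223.AD.Main

/-!
MP_a8f336_ag, Q1 and Q2: every smoothable finite algebra over an algebraically closed field has a
completely split abstract smoothing of approximation degree `0`.

Idea: in a generic basis of the special fibre all the structure constants are non-zero; every lift
of such a basis to the smoothing is a basis all of whose structure constants are units of
`k[[t]]`. A completely split smoothing exists by base change along `k[[t]] → k[[s]]`.
-/

set_option autoImplicit false

open PowerSeries TensorProduct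
open scoped LaurentSeries

namespace Pool.Agent.Results.MP_a8f336_ag.DegreeZero

universe u

/-- The `k[[t]]`-algebra `B` is an abstract smoothing of the finite `k`-algebra `A`: it is finite and
flat, its generic fibre is geometrically reduced, and there is an isomorphism of `k`-algebras
`B / t B ≃ A`. -/
structure IsAbstractSmoothing (k A B : Type u) [Field k] [CommRing A] [Algebra k A] [CommRing B]
    [Algebra k⟦X⟧ B] : Prop where
  finite : Module.Finite k⟦X⟧ B
  flat : Module.Flat k⟦X⟧ B
  generic : Algebra.IsGeometricallyReduced k⸨X⸩ (k⸨X⸩ ⊗[k⟦X⟧] B)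
  special : ∃ σ : (B ⧸ Ideal.span {algebraMap k⟦X⟧ B X}) ≃+* A,
    ∀ c : k, σ (Ideal.Quotient.mk _ (algebraMap k⟦X⟧ B (C c))) = algebraMap k A c

/-- The generic fibre of `B` is isomorphic to the product of `d` copies of `k((t))`. -/
def IsCompletelySplit (k B : Type u) [Field k] [CommRing B] [Algebra k⟦X⟧ B] (d : ℕ) : Prop :=
  Nonempty ((k⸨X⸩ ⊗[k⟦X⟧] B) ≃ₐ[k⸨X⸩] (Fin d → k⸨X⸩))

/-- `ad (B; e)`: the maximum of the valuations of the non-zero structure constants of `B` in the
basis `e`. -/
noncomputable def ad {k B : Type u} [Field k] [CommRing B] [Algebra k⟦X⟧ B] {d : ℕ}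
    (e : Module.Basis (Fin d) k⟦X⟧ B) : ℕ :=
  sSup {m : ℕ | ∃ i j l : Fin d, (e.repr (e i * e j) l).order = m}

/-- The approximation degree of `B`: the minimum of `ad (B; e)` over all bases `e`. -/
noncomputable def approximationDegree (k B : Type u) [Field k] [CommRing B] [Algebra k⟦X⟧ B] : ℕ :=
  sInf {m : ℕ | ∃ (d : ℕ) (e : Module.Basis (Fin d) k⟦X⟧ B), ad e = m}

theorem ad_eq_zero {k B : Type u} [Field k] [CommRing B] [Algebra k⟦X⟧ B] {d : ℕ}
    (e : Module.Basis (Fin d) k⟦X⟧ B)
    (he : ∀ i j l, constantCoeff (e.repr (e i * e j) l) ≠ 0) : ad e = 0 := by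
  unfold ad
  rw [← Nat.bot_eq_zero, eq_bot_iff]
  apply csSup_le'
  rintro m ⟨i, j, l, h⟩
  have h1 : (e.repr (e i * e j) l).order = 0 := by
    rw [PowerSeries.order_zero_of_unit]
    exact PowerSeries.isUnit_iff_constantCoeff.2 (isUnit_iff_ne_zero.2 (he i j l))
  rw [h1] at h
  have h2 : m = 0 := by exact_mod_cast h.symm
  rw [h2]; exact le_refl _

/-- Let `k` be an algebraically closed field and `A` a finite `k`-algebra which has an abstract
smoothing `B₀`. Then `A` has a completely split abstract smoothing `B` of approximation degree `0`. -/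
theorem result (k A : Type u) [Field k] [IsAlgClosed k] [CommRing A] [Algebra k A]
    [Module.Finite k A] (B₀ : Type u) [CommRing B₀] [Algebra k⟦X⟧ B₀]
    (h₀ : IsAbstractSmoothing k A B₀) :
    ∃ (B : Type u) (_ : CommRing B) (_ : Algebra k⟦X⟧ B),
      IsAbstractSmoothing k A B ∧ IsCompletelySplit k B (Module.finrank k A) ∧
      approximationDegree k B = 0 := by
  obtain ⟨hfin, hflat, hgen, σ, hσ⟩ := h₀
  obtain ⟨B, iB, aB, hBfin, hBflat, hsplit, ⟨q, hq, hker, hC⟩, e, he⟩ :=
    Pool.Agent.Y223.AD.main (k := k) (A := A) B₀ hgen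
      ((σ : _ →+* A).comp (Ideal.Quotient.mk (Ideal.span {algebraMap k⟦X⟧ B₀ X})))
      (σ.surjective.comp Ideal.Quotient.mk_surjective)
      (by
        ext x
        rw [RingHom.mem_ker, RingHom.comp_apply, ← Ideal.Quotient.eq_zero_iff_mem]
        exact map_eq_zero_iff σ σ.injective)
      hσ
  refine ⟨B, iB, aB, ⟨hBfin, hBflat, ?_, ?_⟩, hsplit, ?_⟩
  · obtain ⟨ε⟩ := hsplit
    have h1 : Algebra.IsGeometricallyReduced k⸨X⸩ (Fin (Module.finrank k A) → k⸨X⸩) := by
      rw [Algebra.isGeometricallyReduced_field_iff]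
      exact isReduced_of_injective
        (Algebra.TensorProduct.piScalarRight k⸨X⸩ (AlgebraicClosure k⸨X⸩) (AlgebraicClosure k⸨X⸩)
          (Fin (Module.finrank k A))) (AlgEquiv.injective _)
    exact Algebra.IsGeometricallyReduced.of_injective (k := k⸨X⸩) ε.toAlgHom ε.injective
  · refine ⟨(Ideal.quotEquivOfEq hker.symm).trans (RingHom.quotientKerEquivOfSurjective hq), ?_⟩
    intro c
    exact hC c
  · have h1 : (0 : ℕ) ∈ {m : ℕ | ∃ (d : ℕ) (e : Module.Basis (Fin d) k⟦X⟧ B), ad e = m} :=
      ⟨_, e, ad_eq_zero e he⟩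
    exact Nat.eq_zero_of_le_zero (Nat.sInf_le h1)

end Pool.Agent.Results.MP_a8f336_ag.DegreeZero
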